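import Mathlib
import Pool.Agent.H181Z.HTTower

set_option autoImplicit false

namespace Pool.Agent.Results.MP_9053f7_an.AmenableNotHT

open Pool.Agent.H181Z.HT

/-- There is a commutative (unital) complex Banach algebra `A` which is semisimple and regular, whose
projective tensor square is semisimple, and which is amenable but not hyper-Tauberian. -/
theorem result.{u} : ∃ (A : Type) (_ : NormedCommRing A) (_ : NormedAlgebra ℂ A)
    (_ : CompleteSpace A), Semisimple A ∧ Regular A ∧ Semisimple (PT A) ∧ Amenable.{u} A ∧
      ¬ HyperTauberian A :=
  main

end Pool.Agent.Results.MP_9053f7_an.AmenableNotHT
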